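import Pool.Agent.H53.NR.Targets

/-!
# Embeddings which are increasing in an enumeration
-/

set_option autoImplicit false

namespace Pool.Agent.H46.NR

open Pool.Agent.H68.BP Pool.Agent.H58.SF Pool.Agent.H53.GC Pool.Agent.H53.NR

/-- the projection of the structure with `k` copies of the last point -/
def pj (n k : ℕ) (x : Fin (n + k)) : Fin (n + 1) :=
  Fin.addCases (motive := fun _ => Fin (n + 1)) (fun i => i.castSucc) (fun _ => Fin.last n) x

theorem pj_left (n k : ℕ) (i : Fin n) : pj n k (Fin.castAdd k i) = i.castSucc := by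
  unfold pj
  rw [Fin.addCases_left]

theorem pj_right (n k : ℕ) (i : Fin k) : pj n k (Fin.natAdd n i) = Fin.last n := by
  unfold pj
  rw [Fin.addCases_right]

/-- the section through the copy `j` -/
def sj (n k : ℕ) (j : Fin k) (x : Fin (n + 1)) : Fin (n + k) :=
  Fin.snoc (α := fun _ => Fin (n + k)) (fun i => Fin.castAdd k i) (Fin.natAdd n j) x

theorem sj_cast (n k : ℕ) (j : Fin k) (i : Fin n) : sj n k j i.castSucc = Fin.castAdd k i := by
  unfold sj
  rw [Fin.snoc_castSucc]

theorem sj_last (n k : ℕ) (j : Fin k) : sj n k j (Fin.last n) = Fin.natAdd n j := by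
  unfold sj
  rw [Fin.snoc_last]

theorem pj_sj (n k : ℕ) (j : Fin k) (x : Fin (n + 1)) : pj n k (sj n k j x) = x := by
  refine Fin.lastCases ?_ (fun i => ?_) x
  · rw [sj_last, pj_right]
  · rw [sj_cast, pj_left]

/-- the structure with `k` copies of the last point -/
def cp {τ : Sig} {n : ℕ} (𝕏 : Str τ (Fin (n + 1))) (k : ℕ) : Str τ (Fin (n + k)) := fun l z =>
  𝕏 l (fun i => pj n k (z i)) ∧ ∀ i j, pj n k (z i) = pj n k (z j) → z i = z j

theorem cp_iff {τ : Sig} {n : ℕ} (𝕏 : Str τ (Fin (n + 1))) (k : ℕ) {Z : Type}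
    (s : Z → Fin (n + k)) (hs : Function.Injective fun x => pj n k (s x)) (l : Fin τ.m)
    (z : Fin (τ.ar l) → Z) :
    cp 𝕏 k l (fun i => s (z i)) ↔ 𝕏 l (fun i => pj n k (s (z i))) := by
  constructor
  · exact fun h => h.1
  · intro h
    exact ⟨h, fun i j hij => congrArg s (hs hij)⟩

theorem embeds_cp {τ : Sig} {B : Type} {𝔹 : Str τ B} {M n : ℕ} (hM : FreelyBounded 𝔹 M)
    (𝕏 : Str τ (Fin (n + 1))) (h : Embeds 𝕏 𝔹) (k : ℕ) : Embeds (cp 𝕏 k) 𝔹 := by
  obtain ⟨e, he1, he2⟩ := h
  refine hM _ _ fun m s _ hs hirr => ?_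
  have hinj : Function.Injective fun x => pj n k (s x) := by
    intro x y hxy
    by_contra hne
    obtain ⟨l, z, hz, ⟨i, hi⟩, ⟨j, hj⟩⟩ := hirr x y hne
    have h1 : cp 𝕏 k l (fun i => s (z i)) := hz
    have h2 := h1.2 i j (by
      show pj n k (s (z i)) = pj n k (s (z j))
      rw [hi, hj]
      exact hxy)
    have h3 : z i = z j := hs h2
    rw [hi, hj] at h3
    exact hne h3
  refine ⟨fun x => e (pj n k (s x)), fun x y hxy => hinj (he1 hxy), fun l z => ?_⟩
  show cp 𝕏 k l (fun i => s (z i)) ↔ _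
  rw [cp_iff 𝕏 k s hinj]
  exact he2 l _

theorem exists_large {B : Type} (en : B → ℕ) (hen : Function.Injective en) (K : ℕ)
    (c : Fin (K + 1) → B) (hc : Function.Injective c) : ∃ j, K ≤ en (c j) := by
  by_contra h
  push Not at h
  have h1 : Function.Injective fun j => (⟨en (c j), h j⟩ : Fin K) := by
    intro x y hxy
    exact hc (hen (Fin.mk.inj_iff.1 hxy))
  have h2 := Fintype.card_le_of_injective _ h1
  rw [Fintype.card_fin, Fintype.card_fin] at h2
  omega

theorem pf_FB2 : T_FB2 := by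
  classical
  intro τ B 𝔹 M en hen hH hM n
  induction n with
  | zero =>
    rintro 𝕏 ⟨f, hf⟩
    exact ⟨f, hf, fun i => i.elim0⟩
  | succ n ih =>
    intro 𝕏 hX
    obtain ⟨e, he⟩ := hX
    have hcs : Function.Injective (Fin.castSucc : Fin n → Fin (n + 1)) := Fin.castSucc_injective n
    obtain ⟨f, ⟨hf1, hf2⟩, hf3⟩ := ih (pull 𝕏 Fin.castSucc)
      ⟨fun i => e i.castSucc, fun x y hxy => hcs (he.1 hxy), fun l z => he.2 l _⟩
    obtain ⟨K, hK⟩ : ∃ K : ℕ, ∀ i, en (f i) < K :=
      ⟨Finset.univ.sup (fun i => en (f i)) + 1, fun i =>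
        Nat.lt_succ_of_le (Finset.le_sup (f := fun i => en (f i)) (Finset.mem_univ i))⟩
    obtain ⟨g, hg1, hg2⟩ := embeds_cp hM 𝕏 ⟨e, he⟩ (K + 1)
    have hg3 : Function.Injective fun i : Fin n => g (Fin.castAdd (K + 1) i) := fun x y hxy =>
      Fin.castAdd_injective n (K + 1) (hg1 hxy)
    have hleft : ∀ (l : Fin τ.m) (z : Fin (τ.ar l) → Fin n),
        𝔹 l (fun i => g (Fin.castAdd (K + 1) (z i))) ↔ 𝔹 l (fun i => f (z i)) := by
      intro l z
      rw [← hf2 l z, ← hg2 l (fun i => Fin.castAdd (K + 1) (z i)),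
        cp_iff 𝕏 (K + 1) (fun i : Fin n => Fin.castAdd (K + 1) i) (fun x y hxy => by
          have : pj n (K + 1) (Fin.castAdd (K + 1) x) = pj n (K + 1) (Fin.castAdd (K + 1) y) := hxy
          rw [pj_left, pj_left] at this
          exact hcs this) l z]
      simp only [pj_left]
      rfl
    set F : Finset B := Finset.univ.image fun i : Fin n => g (Fin.castAdd (K + 1) i) with hF
    have hmem : ∀ x : F, ∃ i : Fin n, g (Fin.castAdd (K + 1) i) = x := by
      intro x
      obtain ⟨i, -, hi⟩ := Finset.mem_image.1 x.2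
      exact ⟨i, hi⟩
    choose r hr using hmem
    obtain ⟨h, hh1, hh2⟩ := hH F (fun x => f (r x)) ⟨fun x y hxy => by
      have h1 : r x = r y := hf1 hxy
      apply Subtype.ext
      rw [← hr x, ← hr y, h1], fun l z => by
      show 𝔹 l (fun i => ((z i : F) : B)) ↔ 𝔹 l (fun i => f (r (z i)))
      rw [← hleft l fun i => r (z i)]
      simp only [hr]⟩
    have hh3 : ∀ i : Fin n, h (g (Fin.castAdd (K + 1) i)) = f i := by
      intro i
      have hi : g (Fin.castAdd (K + 1) i) ∈ F := Finset.mem_image.2 ⟨i, Finset.mem_univ _, rfl⟩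
      have h1 := hh2 ⟨_, hi⟩
      have h2 : r ⟨_, hi⟩ = i := hg3 (hr ⟨_, hi⟩)
      rw [h2] at h1
      exact h1
    obtain ⟨j, hj⟩ := exists_large en hen K (fun j => h (g (Fin.natAdd n j))) (fun x y hxy =>
      Fin.natAdd_injective (K + 1) n (hg1 (h.injective hxy)))
    have hsinj : Function.Injective (sj n (K + 1) j) := by
      intro x y hxy
      rw [← pj_sj n (K + 1) j x, hxy, pj_sj]
    refine ⟨fun x => h (g (sj n (K + 1) j x)), ⟨fun x y hxy => hsinj (hg1 (h.injective hxy)),
      fun l z => ?_⟩, ?_⟩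
    · rw [← hh1 l (fun i => g (sj n (K + 1) j (z i))), ← hg2 l (fun i => sj n (K + 1) j (z i)),
        cp_iff 𝕏 (K + 1) (sj n (K + 1) j) (fun x y hxy => by
          have : pj n (K + 1) (sj n (K + 1) j x) = pj n (K + 1) (sj n (K + 1) j y) := hxy
          rwa [pj_sj, pj_sj] at this) l z]
      simp only [pj_sj]
    · intro x y hxy
      show en (h (g (sj n (K + 1) j x))) < en (h (g (sj n (K + 1) j y)))
      revert hxy
      refine Fin.lastCases ?_ (fun a => ?_) x
      · intro hxy
        exact absurd hxy (not_lt.2 (Fin.le_last y))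
      · refine Fin.lastCases ?_ (fun b => ?_) y
        · intro _
          rw [sj_cast, sj_last, hh3]
          exact (hK a).trans_le hj
        · intro hab
          rw [sj_cast, sj_cast, hh3, hh3]
          exact hf3 (Fin.castSucc_lt_castSucc_iff.1 hab)

end Pool.Agent.H46.NR
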